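import Pool.Agent.H17.VS.TargetsF
import Pool.Agent.H92.VG.VD

/-!
MP_70ba79_ag, row NZR of vs_modules: number of zeros of a form at a point.
-/

set_option autoImplicit false

namespace Pool.Agent.H26.VS

open MvPolynomial SC Pool.Agent.H27.LV Pool.Agent.H17.VG Pool.Agent.H17.CI Pool.Agent.H17.VS
open Pool.Agent.H92.VG (ge_form)

theorem pf_NZR : T_NZR := by
  intro k K _ _ _ _ _ _ htr n d F hF x _
  classical
  refine ⟨pfi k K htr _ x, fun h0 => ?_⟩
  generalize hf : eval x (up K F) = f at h0 ⊢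
  have hfin := (pfm k K htr f).1
  refine ⟨hfin, ?_⟩
  intro m V hV
  have hge : ∀ v : DV k K, 0 ≤ v.ord f + (d : ℤ) * poleOrder v x := by
    intro v
    have h1 := ge_form htr hF x v
    rw [hf] at h1
    have h2 := h1.resolve_left h0
    linarith
  have f1 : (Function.support fun v : DV k K => v.ord f).Finite := hfin
  have f2 : (Function.support fun v : DV k K => (d : ℤ) * (poleOrder v x : ℤ)).Finite := by
    refine (pfi k K htr _ x).subset fun v hv => ?_
    have h1 := right_ne_zero_of_mul hv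
    simpa using h1
  have f3 : (Function.support fun v : DV k K => v.ord f + (d : ℤ) * poleOrder v x).Finite :=
    (f1.union f2).subset (Function.support_add _ _)
  have hsum : ∑ᶠ v : DV k K, (v.ord f + (d : ℤ) * poleOrder v x) = (d : ℤ) * deg k x := by
    rw [finsum_add_distrib f1 f2, (pfm k K htr f).2, zero_add, cast_deg htr x]
    exact (mul_finsum _ _).symm
  have h1 : ∑ᶠ v : DV k K, (v.ord f + (d : ℤ) * poleOrder v x) =
      ∑ v ∈ f3.toFinset ∪ V, (v.ord f + (d : ℤ) * poleOrder v x) := by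
    refine finsum_eq_sum_of_support_subset _ ?_
    intro v hv
    simp only [Finset.coe_union, Set.Finite.coe_toFinset, Set.mem_union]
    exact Or.inl hv
  have h2 : ∑ v ∈ V, (v.ord f + (d : ℤ) * poleOrder v x) ≤
      ∑ v ∈ f3.toFinset ∪ V, (v.ord f + (d : ℤ) * poleOrder v x) :=
    Finset.sum_le_sum_of_subset_of_nonneg Finset.subset_union_right fun v _ _ => hge v
  have h3 : (m : ℤ) * V.card ≤ ∑ v ∈ V, (v.ord f + (d : ℤ) * poleOrder v x) := by
    have h4 : ∑ _v ∈ V, (m : ℤ) ≤ ∑ v ∈ V, (v.ord f + (d : ℤ) * poleOrder v x) := by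
      refine Finset.sum_le_sum fun v hv => ?_
      have h5 := hV v hv
      have h6 : (0 : ℤ) ≤ (d : ℤ) * poleOrder v x := by positivity
      linarith
    rw [Finset.sum_const, nsmul_eq_mul] at h4
    rw [mul_comm]
    exact h4
  rw [← h1, hsum] at h2
  have h7 : (m : ℤ) * V.card ≤ (d : ℤ) * deg k x := h3.trans h2
  exact_mod_cast h7

end Pool.Agent.H26.VS
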