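import Pool.Agent.H17.VS.TargetsB

/-!
MP_70ba79_ag, row ONV of vs_modules: one step.
-/

set_option autoImplicit false

namespace Pool.Agent.H26.VS

open MvPolynomial SC Pool.Agent.H27.LV Pool.Agent.H17.VG Pool.Agent.H17.CI Pool.Agent.H17.VS

open scoped Classical in
private lemma basis_sum {k K : Type} [Field k] [Field K] [Algebra k K] {n : ℕ} {ι : Type}
    [Fintype ι] {e : ι → ℕ} (q : (Σ i, Mon (n + 1) (e i)) → K) (i : ι) :
    frmT q i = ∑ c, q c • upT K (frmT (Pi.single c (1 : k))) i := by
  have h1 : ∀ c : (Σ i, Mon (n + 1) (e i)), upT K (frmT (Pi.single c (1 : k))) i =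
      ∑ M : Mon (n + 1) (e i), C (algebraMap k K
        ((Pi.single c (1 : k) : (Σ i, Mon (n + 1) (e i)) → k) ⟨i, M⟩)) * mono K M.1 := by
    intro c
    unfold upT up frmT frm
    rw [map_sum]
    refine Finset.sum_congr rfl fun M _ => ?_
    rw [map_mul, map_C, mono, map_monomial, map_one]
    rfl
  simp_rw [h1, Finset.smul_sum]
  rw [Finset.sum_comm]
  unfold frmT frm
  refine Finset.sum_congr rfl fun M _ => ?_
  rw [Finset.sum_eq_single ⟨i, M⟩]
  · rw [Pi.single_eq_same, map_one, map_one, one_mul, MvPolynomial.smul_eq_C_mul]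
  · intro b _ hb
    rw [Pi.single_eq_of_ne hb.symm, map_zero, map_zero, zero_mul, smul_zero]
  · intro h
    exact absurd (Finset.mem_univ _) h

theorem pf_ONV (hSM : T_SMV) (hUV : T_UVM) (hIP : T_IPV) : T_ONV := by
  intro R k K _ _ _ _ _ _ n s ι _ e F D Z x hS hP Q hne
  classical
  set W := PQT x fun j => upT K (frmT (Q j)) with hW
  have hlin := fun (θ θ' : Derivation R K K) (l l' : ι → K) (a b : K) =>
    (hSM R K n ι e F θ θ' l l' a b x).1
  have hsm := fun (θ : Derivation R K K) (l : ι → K) (i : ι) =>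
    (hSM R K n ι e F θ θ l l 0 0 x).2.2 i
  have hWv : ∀ G ∈ W, ∀ i, eval x (G i) = 0 := by
    intro G hG i
    rw [hW] at hG
    unfold PQT at hG
    induction hG using Submodule.span_induction with
    | mem G h =>
      obtain ⟨ξ, j, h1, rfl⟩ := h
      have h2 : eval x (lin ξ) = 0 := by
        unfold lin
        simpa using h1
      rw [map_mul, h2, zero_mul]
    | zero => simp
    | add a b _ _ ha hb => rw [Pi.add_apply, map_add, ha, hb, add_zero]
    | smul a b _ hb => rw [Pi.smul_apply, smul_eval, hb, mul_zero]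
  have hU1 : UV R F x W ≤ TZ R Z F x := by
    intro w hw
    obtain ⟨θ, l, hG, rfl⟩ := (hUV R K n ι F x W w).1 hw
    refine ⟨⟨θ, rfl⟩, ?_⟩
    intro i hi
    have h0 : eval x (F i) = 0 := (hP.on i).2 hi
    have h1 := hsm θ l i
    rw [h0, hWv _ hG i, map_zero, mul_zero, sub_zero, zero_add] at h1
    exact h1.symm
  have hz : ∀ (θ : Derivation R K K) (l : ι → K), smb F θ l = 0 →
      (fun i => θ (x i)) ∈ UV R F x W := fun θ l h =>
    (hUV R K n ι F x W _).2 ⟨θ, l, by rw [h]; exact W.zero_mem, rfl⟩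
  -- families all whose derivations have the velocity in `U`
  let H : Submodule K (Tup ι K n) :=
    { carrier := {G | (∀ i, (G i).IsHomogeneous (e i + 1)) ∧
        ∀ (θ : Derivation R K K) (l : ι → K), smb F θ l = G →
          (fun i => θ (x i)) ∈ UV R F x W}
      zero_mem' := ⟨fun i => isHomogeneous_zero _ _ _, fun θ l h => hz θ l h⟩
      add_mem' := by
        rintro G G' ⟨h1, h2⟩ ⟨h3, h4⟩
        refine ⟨fun i => (h1 i).add (h3 i), ?_⟩
        intro θ l h
        obtain ⟨θ1, h5⟩ := hS.surj G h1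
        obtain ⟨θ2, h6⟩ := hS.surj G' h3
        have h7 : smb F θ1 0 = G := by
          funext i
          simp [smb, h5 i]
        have h8 : smb F θ2 0 = G' := by
          funext i
          simp [smb, h6 i]
        have h9 : smb F (θ - (θ1 + θ2)) l = 0 := by
          have ha := hlin θ1 θ2 0 0 1 1
          simp only [one_smul, add_zero] at ha
          have hb := hlin θ (θ1 + θ2) l 0 1 (-1)
          simp only [one_smul, smul_zero, add_zero, neg_smul] at hb
          rw [sub_eq_add_neg, hb, ha, h, h7, h8]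
          exact add_neg_cancel _
        have h10 := hz _ _ h9
        have h11 : (fun i => θ (x i)) = (fun i => (θ - (θ1 + θ2)) (x i)) +
            ((fun i => θ1 (x i)) + fun i => θ2 (x i)) := by
          funext i
          simp
        rw [h11]
        exact Submodule.add_mem _ h10 (Submodule.add_mem _ (h2 θ1 0 h7) (h4 θ2 0 h8))
      smul_mem' := by
        rintro c G ⟨h1, h2⟩
        refine ⟨fun i => by
          rw [Pi.smul_apply, MvPolynomial.smul_eq_C_mul]
          have := (isHomogeneous_C (Fin (n + 1)) c).mul (h1 i)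
          rwa [Nat.zero_add] at this, ?_⟩
        intro θ l h
        obtain ⟨θ1, h5⟩ := hS.surj G h1
        have h7 : smb F θ1 0 = G := by
          funext i
          simp [smb, h5 i]
        have h9 : smb F (θ - c • θ1) l = 0 := by
          have hb := hlin θ θ1 l 0 1 (-c)
          simp only [one_smul, smul_zero, add_zero, neg_smul] at hb
          rw [sub_eq_add_neg, hb, h, h7]
          exact add_neg_cancel _
        have h10 := hz _ _ h9
        have h11 : (fun i => θ (x i)) = (fun i => (θ - c • θ1) (x i)) +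
            c • (fun i => θ1 (x i)) := by
          funext i
          simp
        rw [h11]
        exact Submodule.add_mem _ h10 (Submodule.smul_mem _ _ (h2 θ1 0 h7)) }
  have hex : ∃ (ξ : Fin (n + 1) → K) (c : (Σ i, Mon (n + 1) (e i))) , ∑ i, ξ i * x i = 0 ∧
      (fun i => lin ξ * upT K (frmT (Pi.single c (1 : k))) i) ∉ H := by
    by_contra hcon
    push Not at hcon
    apply hne
    refine le_antisymm hU1 ?_
    intro w hw
    rw [← hIP R K n ι e F D Z x hS hP] at hw
    obtain ⟨θ, l, hG, rfl⟩ := (hUV R K n ι F x _ w).1 hw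
    have hle : Submodule.span K {G | ∃ (ξ : Fin (n + 1) → K)
        (q : (Σ i, Mon (n + 1) (e i)) → K), ∑ i, ξ i * x i = 0 ∧
        G = fun i => lin ξ * frmT q i} ≤ H := by
      refine Submodule.span_le.2 ?_
      rintro G ⟨ξ, q, h1, rfl⟩
      have h2 : (fun i => lin ξ * frmT q i) =
          ∑ c, q c • (fun i => lin ξ * upT K (frmT (Pi.single c (1 : k))) i : Tup ι K n) := by
        funext i
        rw [basis_sum (k := k) q i, Finset.sum_apply, Finset.mul_sum]
        refine Finset.sum_congr rfl fun c _ => ?_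
        rw [Pi.smul_apply, mul_smul_comm]
      rw [h2]
      exact Submodule.sum_mem _ fun c _ => Submodule.smul_mem _ _ (hcon ξ c h1)
    exact (hle hG).2 θ l rfl
  obtain ⟨ξ, c, hξ, hc⟩ := hex
  have hhom : ∀ i, ((fun i => lin ξ * upT K (frmT (Pi.single c (1 : k))) i : Tup ι K n)
      i).IsHomogeneous (e i + 1) := by
    intro i
    have h1 : (upT K (frmT (Pi.single c (1 : k))) i : MvPolynomial (Fin (n + 1)) K).IsHomogeneous
        (e i) := by
      unfold upT up frmT
      exact (frm_homog _).map _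
    have h2 := (isHomogeneous_lin ξ).mul h1
    rwa [add_comm 1 (e i)] at h2
  have hth : ∃ (θ : Derivation R K K) (l : ι → K),
      smb F θ l = (fun i => lin ξ * upT K (frmT (Pi.single c (1 : k))) i) ∧
      (fun i => θ (x i)) ∉ UV R F x W := by
    by_contra hcon
    push Not at hcon
    exact hc ⟨hhom, hcon⟩
  obtain ⟨θ, l, h1, h2⟩ := hth
  refine ⟨Fin.snoc (α := fun _ => (Σ i, Mon (n + 1) (e i)) → k) Q (Pi.single c 1), ?_⟩
  refine Submodule.finrank_lt_finrank_of_lt (lt_of_le_of_ne ?_ ?_)
  · unfold UV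
    refine Submodule.span_mono ?_
    rintro w ⟨θ', l', h3, rfl⟩
    refine ⟨θ', l', ?_, rfl⟩
    refine Submodule.span_mono ?_ h3
    rintro G ⟨ξ', j, h4, rfl⟩
    refine ⟨ξ', j.castSucc, h4, ?_⟩
    funext i
    beta_reduce
    rw [Fin.snoc_castSucc (α := fun _ => (Σ i, Mon (n + 1) (e i)) → k)]
  · intro heq
    apply h2
    rw [heq]
    refine (hUV R K n ι F x _ _).2 ⟨θ, l, ?_, rfl⟩
    rw [h1]
    refine Submodule.subset_span ⟨ξ, Fin.last s, hξ, ?_⟩
    funext i
    beta_reduce
    rw [Fin.snoc_last (α := fun _ => (Σ i, Mon (n + 1) (e i)) → k)]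

end Pool.Agent.H26.VS
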