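import Pool.Agent.H17.VS.TargetsA

/-!
MP_70ba79_ag, row TRX of vs_modules: a maximal set of algebraically independent coordinates.
-/

set_option autoImplicit false

namespace Pool.Agent.H26.VS

open MvPolynomial SC Pool.Agent.H27.LV Pool.Agent.H17.VG Pool.Agent.H17.CI Pool.Agent.H17.VS

private theorem alg_field {R K : Type} [Field R] [Field K] [Algebra R K] {S : Set K} {a : K}
    (h : IsAlgebraic (Algebra.adjoin R S) a) : IsAlgebraic (IntermediateField.adjoin R S) a := by
  let i : Algebra (Algebra.adjoin R S) (IntermediateField.adjoin R S) :=
    (Subalgebra.inclusion (IntermediateField.algebra_adjoin_le_adjoin R S)).toAlgebra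
  have : IsScalarTower (Algebra.adjoin R S) (IntermediateField.adjoin R S) K :=
    IsScalarTower.of_algebraMap_eq' rfl
  have hinj : Function.Injective (algebraMap (Algebra.adjoin R S)
      (IntermediateField.adjoin R S)) :=
    Subalgebra.inclusion_injective (IntermediateField.algebra_adjoin_le_adjoin R S)
  exact h.extendScalars hinj

theorem pf_TRX : T_TRX := by
  intro R K _ _ _ n r x hx0 hJ
  classical
  set S : Finset (Finset (Fin n)) := Finset.univ.filter
    (fun B => AlgebraicIndependent R (fun b : B => x b.1.succ)) with hS
  have hne : S.Nonempty := by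
    refine ⟨∅, Finset.mem_filter.2 ⟨Finset.mem_univ _, ?_⟩⟩
    exact algebraicIndependent_empty_type_iff.2 (FaithfulSMul.algebraMap_injective R K)
  obtain ⟨B, hB, hmax⟩ := Finset.exists_max_image S Finset.card hne
  have hBi : AlgebraicIndependent R (fun b : B => x b.1.succ) := (Finset.mem_filter.1 hB).2
  refine ⟨B, ?_, hBi, ?_⟩
  · by_contra hc
    have hc : r + 1 ≤ B.card := by omega
    obtain ⟨f⟩ : Nonempty (Fin (r + 1) ↪ B) := by
      refine Function.Embedding.nonempty_of_card_le ?_
      rw [Fintype.card_fin, Fintype.card_coe]
      exact hc
    exact hJ (fun j => (f j).1) (hBi.comp f f.injective)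
  · intro a
    rcases Fin.eq_zero_or_eq_succ a with rfl | ⟨a', rfl⟩
    · rw [hx0]
      exact isAlgebraic_one
    · by_cases ha : a' ∈ B
      · have hmem : x a'.succ ∈ IntermediateField.adjoin R
            (Set.range fun b : B => x b.1.succ) :=
          IntermediateField.subset_adjoin R _ ⟨⟨a', ha⟩, rfl⟩
        exact isAlgebraic_algebraMap (⟨x a'.succ, hmem⟩ : IntermediateField.adjoin R
            (Set.range fun b : B => x b.1.succ))
      · refine alg_field ?_
        by_contra htr
        have hopt := (hBi.option_iff_transcendental (x a'.succ)).2 htr
        have hins : AlgebraicIndependent R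
            (fun b : ↥(insert a' B : Finset (Fin n)) => x b.1.succ) := by
          let φ : ↥(insert a' B : Finset (Fin n)) → Option ↥B := fun b =>
            if h : b.1 ∈ B then some ⟨b.1, h⟩ else none
          have hφ : Function.Injective φ := by
            intro b b' hbb
            have hb := Finset.mem_insert.1 b.2
            have hb' := Finset.mem_insert.1 b'.2
            by_cases h1 : b.1 ∈ B <;> by_cases h2 : b'.1 ∈ B
            · simp only [φ, h1, h2, dite_true, Option.some.injEq, Subtype.mk.injEq] at hbb
              exact Subtype.ext hbb
            · simp [φ, h1, h2] at hbb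
            · simp [φ, h1, h2] at hbb
            · apply Subtype.ext
              rw [hb.resolve_right h1, hb'.resolve_right h2]
          have h3 := hopt.comp φ hφ
          have e : (fun o : Option B => o.elim (x a'.succ) fun b : B => x b.1.succ) ∘ φ =
              fun b : ↥(insert a' B : Finset (Fin n)) => x b.1.succ := by
            funext b
            have hb := Finset.mem_insert.1 b.2
            by_cases h1 : b.1 ∈ B
            · simp [φ, h1]
            · simp [φ, ha, hb.resolve_right h1]
          rw [← e]
          exact h3
        have h4 := hmax (insert a' B) (Finset.mem_filter.2 ⟨Finset.mem_univ _, hins⟩)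
        rw [Finset.card_insert_of_notMem ha] at h4
        omega

end Pool.Agent.H26.VS
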